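import Mathlib
import Pool.Agent.H54.SuperCat

namespace Pool.Agent.Results.MP_14414a_nt.Int

open Nat Finset Pool.Agent.H54.SuperCat

/-- the multinomial coefficient `(4k)!/(k!)^4` -/
def M (k : ℕ) : ℚ := ((4 * k)! : ℚ) / (k ! : ℚ) ^ 4

/-- the normalised sum `a_n` -/
def a (n : ℕ) : ℚ :=
  1 / (2 * n * (2 * n + 1) * ((2 * n).choose n : ℚ)) *
    ∑ k ∈ range n, (28 * k + 3) * M k * (-12288) ^ (n - 1 - k)

def T (n j : ℕ) : ℚ := h (3 * n - j) * h (2 * j) * h j * h n / ((-3) ^ j * j ! * n ! * (3 * n + j)!)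
def G (n j : ℕ) : ℚ := T n j * (32 * n * (3 * n + j) / (6 * n - 2 * j - 1))
def P (n k : ℚ) : ℚ := 6 - 32 * k + 32 * k ^ 2 + 92 * n - 248 * n * k + 112 * n * k ^ 2 + 384 * n ^ 2
  - 416 * n ^ 2 * k + 448 * n ^ 3
def F (n j : ℕ) : ℚ := T n j * (P n (n - j) / ((3 * n + j + 1) * (3 * n + j + 2)))
def G2 (n j : ℕ) : ℚ := T n j * (-24 * n * (4 * j + 1) * (2 * n + 1) / ((2 * j - 1) * (3 * n + j + 1)))
def V (n j : ℕ) : ℚ := T n j * (96 * j * n / (2 * j - 1))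

lemma wz (j e : ℕ) :
    F (j + e + 1) (j + 1) - F (j + e + 1) j = G (j + e + 1 + 1) (j + 1) - G (j + e + 1) j := by
  simp only [F, G, T, P]
  rw [show 3 * (j + e + 1) - (j + 1) = 2 * j + 3 * e + 2 by omega,
    show 3 * (j + e + 1) - j = 2 * j + 3 * e + 2 + 1 by omega,
    show 3 * (j + e + 1 + 1) - (j + 1) = 2 * j + 3 * e + 2 + 1 + 1 + 1 by omega,
    show 3 * (j + e + 1) + (j + 1) = 3 * (j + e + 1) + j + 1 by omega,
    show 3 * (j + e + 1 + 1) + (j + 1) = 3 * (j + e + 1) + j + 1 + 1 + 1 + 1 by omega,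
    show 2 * (j + 1) = 2 * j + 1 + 1 by omega]
  generalize hA : 2 * j + 3 * e + 2 = A
  generalize hB : 3 * (j + e + 1) + j = B
  generalize hn : j + e + 1 = n
  simp only [h, factorial_succ, pow_succ]
  push_cast
  rw [show (6 * ((n : ℚ) + 1) - 2 * (j + 1) - 1) = 2 * A + 5 by rw [← hA, ← hn]; push_cast; ring,
    show (6 * (n : ℚ) - 2 * j - 1) = 2 * A + 1 by rw [← hA, ← hn]; push_cast; ring]
  field_simp
  rw [← hA, ← hB, ← hn]
  push_cast
  ring

lemma wz0 (n : ℕ) : F n 0 = G (n + 1) 0 := by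
  simp only [F, G, T, P, Nat.sub_zero, add_zero, show 3 * (n + 1) = 3 * n + 1 + 1 + 1 by ring]
  simp only [h, factorial_succ]
  push_cast
  rw [show (6 * ((n : ℚ) + 1) - 2 * 0 - 1) = 6 * n + 5 by ring]
  field_simp
  ring

lemma tele (j e : ℕ) :
    G2 (j + e + 1) j - G (j + e + 1) j = V (j + e + 1) (j + 1) - V (j + e + 1) j := by
  simp only [G2, G, T, V]
  rw [show 3 * (j + e + 1) - (j + 1) = 2 * j + 3 * e + 2 by omega,
    show 3 * (j + e + 1) - j = 2 * j + 3 * e + 2 + 1 by omega,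
    show 3 * (j + e + 1) + (j + 1) = 3 * (j + e + 1) + j + 1 by omega,
    show 2 * (j + 1) = 2 * j + 1 + 1 by omega]
  generalize hA : 2 * j + 3 * e + 2 = A
  generalize hB : 3 * (j + e + 1) + j = B
  generalize hn : j + e + 1 = n
  simp only [h, factorial_succ, pow_succ]
  push_cast
  have h1 : (2 * (j : ℚ) - 1) ≠ 0 := fun h => odd_ne 0 j (by push_cast; linarith)
  rw [show (6 * (n : ℚ) - 2 * j - 1) = 2 * A + 1 by rw [← hA, ← hn]; push_cast; ring,
    show (2 * ((j : ℚ) + 1) - 1) = 2 * j + 1 by ring]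
  field_simp
  rw [← hA, ← hB, ← hn]
  push_cast
  ring

lemma TT (n : ℕ) : T n n = M n / (-12288) ^ n := by
  simp only [T, M, show 3 * n - n = 2 * n by omega, show 3 * n + n = 4 * n by ring, h_eq,
    show 2 * (2 * n) = 4 * n by ring]
  rw [show (-12288 : ℚ) = -3 * 4 ^ 6 by norm_num, mul_pow, ← pow_mul]
  field_simp
  ring

lemma FF (n : ℕ) : F n n = (28 * n + 3) * M n / (-12288) ^ n := by
  rw [F, TT, P]
  field_simp
  ring

lemma psi (n : ℕ) : ∑ j ∈ range n, G n j = ∑ k ∈ range n, F k k := by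
  induction n with
  | zero => rfl
  | succ n ih =>
    rw [sum_range_succ', sum_range_succ, ← ih, ← wz0]
    have := sum_range_sub (F n) n
    rw [sum_congr rfl (g := fun j => G (n + 1) (j + 1) - G n j) fun j hj => by
      obtain ⟨e, rfl⟩ := Nat.exists_eq_add_of_lt (mem_range.1 hj)
      exact wz j e, sum_sub_distrib] at this
    linarith

lemma psi2 (n : ℕ) : ∑ j ∈ range n, G n j = ∑ j ∈ range n, G2 n j - V n n := by
  have := sum_range_sub (V n) n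
  rw [sum_congr rfl (g := fun j => G2 n j - G n j) fun j hj => by
    obtain ⟨e, rfl⟩ := Nat.exists_eq_add_of_lt (mem_range.1 hj)
    exact (tele j e).symm, sum_sub_distrib] at this
  simp only [V, Nat.cast_zero, mul_zero, zero_mul, zero_div, sub_zero] at this ⊢
  linarith

/-- normalising factor -/
def W (n : ℕ) : ℚ := (-12288) ^ n / (2 * (n + 1) * (2 * n + 3) * (4 ^ (n + 1) * h (n + 1) / (n + 1)!))

lemma a_eq (n : ℕ) : a (n + 1) = W n * ∑ k ∈ range (n + 1), F k k := by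
  rw [a, cb, W, mul_sum, mul_sum]
  refine sum_congr rfl fun k hk => ?_
  obtain ⟨e, rfl⟩ := Nat.exists_eq_add_of_le (Nat.lt_succ_iff.1 (mem_range.1 hk))
  rw [FF, show k + e + 1 - 1 - k = e by omega, pow_add]
  have := (h_pos (k + e + 1)).ne'
  push_cast
  field_simp
  ring

lemma t1 (j e : ℕ) : (2 * (j + e : ℕ) + 3) * (W (j + e) * G (j + e + 1) j) =
    (-3) ^ e * 16 ^ e / 8 * (4 ^ j * h j / j !) *
      (4 ^ (2 * j + 3 * e + 2 + 2 * j) * h (2 * j + 3 * e + 2) * h (2 * j) / (2 * j + 3 * e + 2 + 2 * j)!) := by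
  simp only [W, G, T]
  rw [show 3 * (j + e + 1) - j = 2 * j + 3 * e + 2 + 1 by omega,
    show 3 * (j + e + 1) + j = 2 * j + 3 * e + 2 + 2 * j + 1 by omega, h.eq_2 (2 * j + 3 * e + 2),
    factorial_succ (2 * j + 3 * e + 2 + 2 * j), show (-12288 : ℚ) = -3 * 4 ^ 6 by norm_num,
    show (16 : ℚ) = 4 ^ 2 by norm_num, mul_pow, ← pow_mul, ← pow_mul]
  have := (h_pos (j + e + 1)).ne'
  push_cast
  rw [show (6 * ((j : ℚ) + e + 1) - 2 * j - 1) = 2 * (2 * j + 3 * e + 2) + 1 by ring]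
  field_simp
  ring

lemma t2 (j e : ℕ) : 256 * (W (j + e) * G2 (j + e + 1) j) =
    (-3) ^ (e + 1) * 16 ^ e * 2 * (4 ^ j * h j / j ! / (2 * j - 1)) *
      (4 ^ (2 * j + 3 * e + 3 + (2 * j + 1)) * h (2 * j + 3 * e + 3) * h (2 * j + 1) /
        (2 * j + 3 * e + 3 + (2 * j + 1))!) := by
  simp only [W, G2, T]
  rw [show 3 * (j + e + 1) - j = 2 * j + 3 * e + 3 by omega,
    show 2 * j + 3 * e + 3 + (2 * j + 1) = 3 * (j + e + 1) + j + 1 by omega, h.eq_2 (2 * j),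
    factorial_succ (3 * (j + e + 1) + j), show (-12288 : ℚ) = -3 * 4 ^ 6 by norm_num,
    show (16 : ℚ) = 4 ^ 2 by norm_num, mul_pow, ← pow_mul, ← pow_mul]
  have := (h_pos (j + e + 1)).ne'
  have h1 : (2 * (j : ℚ) - 1) ≠ 0 := fun h => odd_ne 0 j (by push_cast; linarith)
  push_cast
  field_simp
  ring

lemma t3 (n : ℕ) : 256 * (W n * V (n + 1) (n + 1)) =
    -(n + 1) * (4 ^ (n + 1) * h (n + 1) / (n + 1)! / (2 * (n + 1 : ℕ) - 1)) *
      (4 ^ (2 * (n + 1)) * h (2 * (n + 1)) / (2 * (n + 1))! / ((2 * (n + 1) : ℕ) + 1)) := by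
  simp only [W, V, T, show 3 * (n + 1) - (n + 1) = 2 * (n + 1) by omega,
    show 3 * (n + 1) + (n + 1) = 2 * (2 * (n + 1)) by ring]
  rw [h_eq (2 * (n + 1)), show (-12288 : ℚ) = -3 * 4 ^ 6 by norm_num, mul_pow, ← pow_mul]
  have := (h_pos (n + 1)).ne'
  push_cast
  rw [show (2 * ((n : ℚ) + 1) - 1) = 2 * n + 1 by ring, show (2 * ((n : ℚ) + 1) + 1) = 2 * n + 3 by ring]
  field_simp
  ring

lemma t4 (j : ℕ) : (2 * j + 1) * (4 ^ (2 * j + 3 * 0 + 2 + 2 * j) * h (2 * j + 3 * 0 + 2) * h (2 * j) /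
    (2 * j + 3 * 0 + 2 + 2 * j)!) = 2 * (4 * j + 3) * (4 ^ (2 * j) * h (2 * j) / (2 * j)!) := by
  rw [show 2 * j + 3 * 0 + 2 + 2 * j = 2 * (2 * j) + 1 + 1 by ring,
    show 2 * j + 3 * 0 + 2 = 2 * j + 1 + 1 by ring]
  simp only [h, factorial_succ]
  rw [h_eq (2 * j)]
  push_cast
  field_simp
  ring

lemma int (n : ℕ) : ∃ z : ℤ, a (n + 1 + 1) = z := by
  have I : ∃ x : ℤ, (((2 * n + 3) * (2 * n + 5) : ℤ) : ℚ) * a (n + 1 + 1) = x := by
    rw [a_eq, ← psi, mul_sum, mul_sum]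
    refine sum_int fun j hj => ?_
    obtain ⟨e, he⟩ := Nat.exists_eq_add_of_le (Nat.lt_succ_iff.1 hj)
    have e1 := t1 j e
    rw [← he] at e1
    push_cast at e1 ⊢
    rw [mul_assoc, show (2 * (n : ℚ) + 5) = 2 * (n + 1) + 3 by ring, e1]
    cases e with
    | zero =>
      obtain rfl : j = n + 1 := by omega
      obtain ⟨x, hx⟩ := even_cb n
      obtain ⟨y, hy⟩ := even_cb (2 * n + 1)
      have e4 := t4 (n + 1)
      rw [show 2 * n + 1 + 1 = 2 * (n + 1) by ring] at hy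
      rw [hy] at e4
      refine ⟨x * y * (4 * n + 7), ?_⟩
      rw [hx]
      push_cast at e4 ⊢
      linear_combination (x / 4 : ℚ) * e4
    | succ e =>
      obtain ⟨y, hy⟩ := sc (2 * j + 3 * (e + 1) + 2) (2 * j)
      rw [hy, ← cb]
      exact ⟨(2 * n + 3) * ((-3) ^ (e + 1) * 16 ^ e * 2 * (2 * j).choose j * y), by push_cast; ring⟩
  have II : ∃ y : ℤ, ((256 : ℤ) : ℚ) * a (n + 1 + 1) = y := by
    rw [a_eq, ← psi, psi2, mul_sub, mul_sub, mul_sum, mul_sum]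
    push_cast
    obtain ⟨x, hx⟩ := sum_int (n := n + 1 + 1) (f := fun j => 256 * (W (n + 1) * G2 (n + 1 + 1) j))
      fun j hj => by
        obtain ⟨e, he⟩ := Nat.exists_eq_add_of_le (Nat.lt_succ_iff.1 hj)
        obtain ⟨y, hy⟩ := sc (2 * j + 3 * e + 3) (2 * j + 1)
        obtain ⟨x, hx⟩ := ee j
        rw [he, t2, hx, hy]
        exact ⟨(-3) ^ (e + 1) * 16 ^ e * 2 * x * y, by push_cast; ring⟩
    obtain ⟨y, hy⟩ := ee (n + 1 + 1)
    obtain ⟨z, hz⟩ := cat (2 * (n + 1 + 1))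
    rw [hx, t3, hy, hz]
    exact ⟨x + (n + 2) * y * z, by push_cast; ring⟩
  obtain ⟨x, hx⟩ := I
  obtain ⟨y, hy⟩ := II
  refine int_of_coprime ?_ hx hy
  rw [show (256 : ℤ) = 2 ^ 8 by norm_num]
  exact (IsCoprime.mul_left ⟨1, -((n : ℤ) + 1), by ring⟩ ⟨1, -((n : ℤ) + 2), by ring⟩).pow_right

lemma Mpos (n : ℕ) : 0 < M n := by unfold M; positivity

lemma Mle (n : ℕ) : M (n + 1) ≤ 256 * M n := by
  have : M (n + 1) = M n * ((4 * n + 1) * (4 * n + 2) * (4 * n + 3) * 4 / (n + 1) ^ 3) := by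
    simp only [M, show 4 * (n + 1) = 4 * n + 1 + 1 + 1 + 1 by ring, factorial_succ]
    push_cast
    field_simp
    ring
  rw [this, mul_comm]
  refine mul_le_mul_of_nonneg_right ?_ (Mpos n).le
  rw [div_le_iff₀ (by positivity)]
  have : (0 : ℚ) ≤ n := by positivity
  nlinarith [mul_nonneg this this]

lemma pos (n : ℕ) : 2 * ((28 * (n + 1) + 3) * M (n + 1)) ≤
    12288 ^ (n + 1) * ∑ k ∈ range (n + 1), F k k := by
  induction n with
  | zero => simp [FF, M, factorial]; norm_num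
  | succ n ih =>
    rw [sum_range_succ, FF, mul_add, pow_succ _ (n + 1)]
    have h1 := Mle (n + 1)
    have h2 := Mpos (n + 1)
    have h3 : (0 : ℚ) ≤ n := by positivity
    have h4 : -((28 * (n + 1) + 3) * M (n + 1)) ≤
        12288 ^ (n + 1) * ((28 * (n + 1) + 3) * M (n + 1) / (-12288) ^ (n + 1)) := by
      rcases Nat.even_or_odd (n + 1) with h | h
      · rw [h.neg_pow, mul_div_cancel₀ _ (by positivity)]
        linarith [show (0 : ℚ) ≤ (28 * (n + 1) + 3) * M (n + 1) by positivity]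
      · rw [h.neg_pow, div_neg, mul_neg, mul_div_cancel₀ _ (by positivity)]
    push_cast at ih ⊢
    nlinarith [mul_nonneg h3 h2.le, mul_le_mul_of_nonneg_left h1 (show (0 : ℚ) ≤ 28 * (n + 1 + 1) + 3 by positivity)]

theorem result (n : ℕ) (hn : 2 ≤ n) : ∃ z : ℤ, 0 < z ∧ (-1) ^ (n - 1) * a n = z := by
  obtain ⟨n, rfl⟩ : ∃ m, n = m + 1 + 1 := ⟨n - 2, by omega⟩
  obtain ⟨z, hz⟩ := int n
  have h1 : 0 < (-1) ^ (n + 1) * a (n + 1 + 1) := by
    have h2 := pos (n + 1)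
    have h3 := Mpos (n + 1 + 1)
    have h4 : 0 < ∑ k ∈ range (n + 1 + 1), F k k :=
      (pos_iff_pos_of_mul_pos (lt_of_lt_of_le (by positivity) h2)).1 (by positivity)
    have h5 := h_pos (n + 1 + 1)
    rw [a_eq, W, ← mul_assoc, ← mul_div_assoc, ← mul_pow]
    norm_num
    positivity
  refine ⟨(-1) ^ (n + 1) * z, ?_, by rw [hz]; push_cast; rfl⟩
  rw [hz] at h1
  exact_mod_cast h1

end Pool.Agent.Results.MP_14414a_nt.Int
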